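import Mathlib
import Pool.Agent.Helper377.PntUnif
import Pool.Agent.Helper377.MaxSum
import Pool.Agent.Helper377.MaxSumCount

/-!
# Inserting a prime into a set of pairwise coprime integers

Let `S` be a set of pairwise coprime integers in `{1, …, n}` and `p ≤ √n` a prime which divides no element of `S`. We
show that there is another such set `T` whose sum is larger by at least `(1 - ε) n`, and such that the primes `≤ √n`
which divide elements of `T` are `p` and primes which divide elements of `S`. Proof: induction on `p`. There is a prime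
`P` slightly smaller than `n / p` which is free, or such that `u P ∈ S` for a prime `u < p`; in the second case `u P`
is replaced by `p P` and the induction hypothesis is applied to `u`.
-/

set_option autoImplicit false

namespace Pool.Agent.Y82.MS

open Pool.Agent.Helper377.MaxSum

/-- One exchange: `R` is replaced by `b`. -/
theorem swap {n : ℕ} {S : Finset ℕ} (hS : Admissible n S) {b R : ℕ} (hb : 2 ≤ b) (hbn : b ≤ n)
    (hc : ∀ s ∈ S, s ≠ R → Nat.Coprime b s) :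
    Admissible n (insert b (S.erase R)) ∧
      ∑ s ∈ S, s + b ≤ ∑ s ∈ insert b (S.erase R), s + R := by
  have hbS : b ∉ S.erase R := by
    intro h
    rw [Finset.mem_erase] at h
    have := hc b h.2 h.1
    rw [Nat.coprime_self] at this
    omega
  refine ⟨⟨?_, ?_⟩, ?_⟩
  · intro x hx
    rcases Finset.mem_insert.mp hx with h | h
    · rw [h, Finset.mem_Icc]; omega
    · exact hS.1 (Finset.mem_of_mem_erase h)
  · intro x hx y hy hxy
    rw [Finset.mem_coe, Finset.mem_insert] at hx hy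
    rcases hx with hx | hx <;> rcases hy with hy | hy
    · exact absurd (hx.trans hy.symm) hxy
    · rw [hx]; exact hc y (Finset.mem_of_mem_erase hy) (Finset.ne_of_mem_erase hy)
    · rw [hy]; exact (hc x (Finset.mem_of_mem_erase hx) (Finset.ne_of_mem_erase hx)).symm
    · exact hS.2 (Finset.mem_of_mem_erase hx) (Finset.mem_of_mem_erase hy) hxy
  · rw [Finset.sum_insert hbS]
    have : ∑ s ∈ S, s ≤ ∑ s ∈ S.erase R, s + R := by
      by_cases hR : R ∈ S
      · exact (Finset.sum_erase_add S (fun s => s) hR).ge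
      · rw [Finset.erase_eq_of_notMem hR]; omega
    omega

/-- The elements of `S` which are proper multiples of large primes. -/
theorem cofactors {n : ℕ} {S : Finset ℕ} (hS : Admissible n S) (T : Finset ℕ)
    (hT : ∀ P ∈ T, P.Prime ∧ ¬ Free S P) (hTn : ∀ P ∈ T, ∀ Q ∈ T, n < P * Q) :
    ∃ c : ℕ → ℕ, (∀ P ∈ T, 2 ≤ c P ∧ P * c P ∈ S) ∧
      Set.InjOn (fun P => (c P).minFac) (T : Set ℕ) := by
  classical
  have h : ∀ P : ℕ, ∃ c : ℕ, P ∈ T → 2 ≤ c ∧ P * c ∈ S := by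
    intro P
    by_cases hPT : P ∈ T
    · obtain ⟨h1, h2⟩ := hT P hPT
      unfold Free at h2
      push Not at h2
      obtain ⟨s, hs, ⟨c, rfl⟩, hne⟩ := h2
      have hs1 := (Finset.mem_Icc.mp (hS.1 hs)).1
      refine ⟨c, fun _ => ⟨?_, hs⟩⟩
      rcases c with _ | _ | c
      · rw [mul_zero] at hs1; omega
      · exact absurd (mul_one P) hne
      · omega
    · exact ⟨0, fun h => absurd h hPT⟩
  choose c hc using h
  refine ⟨c, hc, ?_⟩
  intro P hP Q hQ hPQ
  by_contra hne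
  obtain ⟨h1, h2⟩ := hc P hP
  obtain ⟨g1, g2⟩ := hc Q hQ
  have hst : P * c P = Q * c Q := by
    by_contra hst
    have hcop := hS.2 h2 g2 hst
    have hm : (c P).minFac ∣ P * c P := (Nat.minFac_dvd _).mul_left _
    have hm2 : (c P).minFac ∣ Q * c Q := by
      have : (c P).minFac = (c Q).minFac := hPQ
      rw [this]
      exact (Nat.minFac_dvd _).mul_left _
    have := Nat.eq_one_of_dvd_coprimes hcop hm hm2
    exact (Nat.minFac_prime (by omega)).one_lt.ne' this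
  have hP1 := (hT P hP).1
  have hQ1 := (hT Q hQ).1
  have hcop : Nat.Coprime P Q := (Nat.coprime_primes hP1 hQ1).mpr hne
  have hd : P * Q ∣ P * c P :=
    hcop.mul_dvd_of_dvd_of_dvd (dvd_mul_right _ _) (hst ▸ dvd_mul_right _ _)
  have hs1 := Finset.mem_Icc.mp (hS.1 h2)
  have := Nat.le_of_dvd (by omega) hd
  have := hTn P hP Q hQ
  omega

/-- For `v ≤ (1 - ε) √n` there is a prime `P` slightly smaller than `n / v` which is free, or has a partner `u < v`. -/
theorem near (ε : ℝ) (h0 : 0 < ε) (h1 : ε ≤ 1 / 2) : ∃ N0 : ℕ, ∀ n : ℕ, N0 ≤ n → ∀ S : Finset ℕ,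
    Admissible n S → ∀ v : ℕ, 1 ≤ v → (v : ℝ) ≤ (1 - ε) * Real.sqrt n →
    ∃ P : ℕ, P.Prime ∧ v * P ≤ n ∧ (1 - ε) * n < v * P ∧ n < P * P ∧
      (Free S P ∨ ∃ u : ℕ, u.Prime ∧ u < v ∧ P * u ∈ S) := by
  classical
  set η : ℝ := ε ^ 2 / 8 with hη
  have hη0 : 0 < η := by positivity
  obtain ⟨Y0, hY02, hY0⟩ := Pool.Agent.Helper377.PntUnif.pnt_unif η hη0
  obtain ⟨Y1, hY1⟩ := log_small (η / 6) (by positivity)
  set M : ℝ := max (max Y0 (4 / ε ^ 2)) (max 1 ((max Y1 1) ^ 2)) with hM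
  refine ⟨⌈M⌉₊ ^ 2 + 1, ?_⟩
  intro n hn S hS v hv hvn
  have hvR : (1 : ℝ) ≤ v := by exact_mod_cast hv
  have hv0 : (0 : ℝ) < v := by linarith
  set r : ℝ := Real.sqrt n with hr
  have hrn : (0 : ℝ) ≤ n := Nat.cast_nonneg n
  have hr0 : 0 ≤ r := Real.sqrt_nonneg _
  have hrr : r * r = n := Real.mul_self_sqrt hrn
  have he1 : 0 < 1 - ε := by linarith
  have hrM : M < r := by
    have h2 : (⌈M⌉₊ : ℝ) ^ 2 + 1 ≤ n := by exact_mod_cast hn
    have h3 : M ≤ (⌈M⌉₊ : ℝ) := Nat.le_ceil _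
    by_contra hlt
    push Not at hlt
    have h4 : r ≤ (⌈M⌉₊ : ℝ) := hlt.trans h3
    nlinarith
  have hM1 : 1 ≤ M := (le_max_left _ _).trans (le_max_right _ _)
  have hr1 : 0 < r := by linarith
  have hn0 : (0 : ℝ) < n := by rw [← hrr]; positivity
  set Y : ℝ := (n : ℝ) / v with hY
  have hvY : (v : ℝ) * Y = n := by rw [hY]; field_simp
  have hY00 : 0 < Y := by rw [hY]; positivity
  have hY1r : r ≤ (1 - ε) * Y := by
    by_contra hlt
    push Not at hlt
    have h2 : (v : ℝ) * ((1 - ε) * Y) < v * r := mul_lt_mul_of_pos_left hlt hv0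
    have h3 : (v : ℝ) * r ≤ (1 - ε) * r * r := mul_le_mul_of_nonneg_right hvn hr0
    have h4 : (v : ℝ) * ((1 - ε) * Y) = (1 - ε) * n := by rw [← hvY]; ring
    have h5 : (1 - ε) * r * r = (1 - ε) * n := by rw [← hrr]; ring
    linarith
  have hYr : r ≤ Y := by nlinarith
  have hvY2 : (v : ℝ) ≤ (1 - ε) ^ 2 * Y := by
    by_contra hlt
    push Not at hlt
    have h2 : (v : ℝ) * ((1 - ε) ^ 2 * Y) < v * v := mul_lt_mul_of_pos_left hlt hv0
    have h3 : (v : ℝ) * v ≤ ((1 - ε) * r) * ((1 - ε) * r) :=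
      mul_le_mul hvn hvn hv0.le (by positivity)
    have h4 : (v : ℝ) * ((1 - ε) ^ 2 * Y) = (1 - ε) ^ 2 * n := by rw [← hvY]; ring
    have h5 : ((1 - ε) * r) * ((1 - ε) * r) = (1 - ε) ^ 2 * n := by rw [← hrr]; ring
    linarith
  have hYM : M < Y := lt_of_lt_of_le hrM hYr
  have hYY0 : Y0 ≤ Y := (((le_max_left _ _).trans (le_max_left _ _)).trans hYM.le)
  have hYe : 4 / ε ^ 2 ≤ Y := (((le_max_right _ _).trans (le_max_left _ _)).trans hYM.le)
  have hY11 : (max Y1 1) ^ 2 ≤ Y := (((le_max_right _ _).trans (le_max_right _ _)).trans hYM.le)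
  have hYone : 1 ≤ Y := hM1.trans hYM.le
  set w : ℝ := (v : ℝ) / (1 - ε) with hw
  have hww : (1 - ε) * w = v := by rw [hw]; field_simp
  have hw0 : 0 < w := by rw [hw]; positivity
  have hwY : w ≤ (1 - ε) * Y := by
    by_contra hlt
    push Not at hlt
    have : (1 - ε) * ((1 - ε) * Y) < (1 - ε) * w := mul_lt_mul_of_pos_left hlt he1
    nlinarith
  have hwY2 : w ≤ Y := by nlinarith
  have hvw : (v : ℝ) ≤ w := by nlinarith
  have hw2 : w ≤ 2 * v := by nlinarith
  have hmem : ∀ P ∈ PI ((1 - ε) * Y) Y, P.Prime ∧ (1 - ε) * Y < (P : ℝ) ∧ (P : ℝ) ≤ Y :=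
    fun P hP => (mem_PI (by positivity) hY00.le P).mp hP
  by_contra hcon
  push Not at hcon
  have hgood : ∀ P ∈ PI ((1 - ε) * Y) Y,
      ¬ Free S P ∧ ∀ u : ℕ, u.Prime → u < v → P * u ∉ S := by
    intro P hP
    obtain ⟨g1, g2, g3⟩ := hmem P hP
    have g4 : v * P ≤ n := by
      have : (v : ℝ) * P ≤ n := by rw [← hvY]; exact mul_le_mul_of_nonneg_left g3 hv0.le
      exact_mod_cast this
    have g5 : (1 - ε) * n < (v : ℝ) * P := by
      have : (v : ℝ) * ((1 - ε) * Y) < v * P := mul_lt_mul_of_pos_left g2 hv0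
      calc (1 - ε) * (n : ℝ) = (v : ℝ) * ((1 - ε) * Y) := by rw [← hvY]; ring
        _ < _ := this
    have g6 : n < P * P := by
      have : r * r < (P : ℝ) * P := by
        have : r < P := lt_of_le_of_lt hY1r g2
        exact mul_self_lt_mul_self hr0 this
      rw [hrr] at this
      exact_mod_cast this
    exact hcon P g1 g4 g5 g6
  have hprod : ∀ P ∈ PI ((1 - ε) * Y) Y, ∀ Q ∈ PI ((1 - ε) * Y) Y, n < P * Q := by
    intro P hP Q hQ
    obtain ⟨-, g2, -⟩ := hmem P hP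
    obtain ⟨-, k2, -⟩ := hmem Q hQ
    have : r * r < (P : ℝ) * Q :=
      mul_lt_mul'' (lt_of_le_of_lt hY1r g2) (lt_of_le_of_lt hY1r k2) hr0 hr0
    rw [hrr] at this
    exact_mod_cast this
  obtain ⟨c, hc, hinj⟩ := cofactors hS (PI ((1 - ε) * Y) Y)
    (fun P hP => ⟨(hmem P hP).1, (hgood P hP).1⟩) hprod
  have hcw : ∀ P ∈ PI ((1 - ε) * Y) Y, (c P : ℝ) ≤ w := by
    intro P hP
    obtain ⟨g1, g2, g3⟩ := hmem P hP
    have g4 : P * c P ≤ n := (Finset.mem_Icc.mp (hS.1 (hc P hP).2)).2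
    have g5 : (P : ℝ) * c P ≤ n := by exact_mod_cast g4
    by_contra hlt
    push Not at hlt
    have g6 : ((1 - ε) * Y) * w < (P : ℝ) * c P :=
      mul_lt_mul'' g2 hlt (by positivity) hw0.le
    have g7 : ((1 - ε) * Y) * w = n := by
      calc ((1 - ε) * Y) * w = ((1 - ε) * w) * Y := by ring
        _ = n := by rw [hww, hvY]
    linarith
  have hmaps : ∀ P ∈ PI ((1 - ε) * Y) Y,
      (c P).minFac ∈ Finset.range (Nat.sqrt (2 * v) + 1) ∪ PI ((v : ℝ) - 1) w := by
    intro P hP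
    have g1 := hc P hP
    have g2 := hcw P hP
    rw [Finset.mem_union]
    by_cases hpr : (c P).Prime
    · right
      rw [hpr.minFac_eq, mem_PI (by linarith) hw0.le]
      refine ⟨hpr, ?_, g2⟩
      by_contra hlt
      push Not at hlt
      have g3 : c P < v := by
        have : (c P : ℝ) < v := by linarith
        exact_mod_cast this
      exact (hgood P hP).2 (c P) hpr g3 g1.2
    · left
      rw [Finset.mem_range, Nat.lt_succ_iff, Nat.le_sqrt']
      have g3 := Nat.minFac_sq_le_self (by omega) hpr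
      have g4 : c P ≤ 2 * v := by
        have : (c P : ℝ) ≤ 2 * v := g2.trans hw2
        exact_mod_cast this
      exact g3.trans g4
  have hcard := Finset.card_le_card_of_injOn _ (fun P hP => hmaps P hP) hinj
  have hcard1 := Finset.card_union_le (Finset.range (Nat.sqrt (2 * v) + 1)) (PI ((v : ℝ) - 1) w)
  rw [Finset.card_range] at hcard1
  have hcard3 : ((PI ((1 - ε) * Y) Y).card : ℝ) ≤
      ((Nat.sqrt (2 * v) : ℝ) + 1) + ((PI ((v : ℝ) - 1) w).card : ℝ) := by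
    have h := (Nat.cast_le (α := ℝ)).mpr (hcard.trans hcard1)
    push_cast at h
    exact h
  rw [card_PI (by nlinarith), card_PI (by linarith)] at hcard3
  -- the square root
  set q : ℝ := Real.sqrt Y with hq
  have hqq : q * q = Y := Real.mul_self_sqrt hY00.le
  have hq0 : 0 < q := Real.sqrt_pos.mpr hY00
  have hq1 : max Y1 1 ≤ q := by
    have hm : 0 ≤ max Y1 1 := le_trans zero_le_one (le_max_right _ _)
    exact Real.le_sqrt_of_sq_le hY11
  have hlog : Real.log Y < η / 3 * q := by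
    have g1 := hY1 q ((le_max_left _ _).trans hq1)
    have g2 : Real.log Y = 2 * Real.log q := by
      rw [← hqq, Real.log_mul hq0.ne' hq0.ne']; ring
    rw [g2]; linarith
  have hlY : 0 ≤ Real.log Y := Real.log_nonneg hYone
  have hsq : (Nat.sqrt (2 * v) : ℝ) + 1 ≤ 3 * q := by
    have g1 : (Nat.sqrt (2 * v) : ℝ) * (Nat.sqrt (2 * v) : ℝ) ≤ 2 * v := by
      exact_mod_cast Nat.sqrt_le (2 * v)
    have g2 : (2 : ℝ) * v ≤ 2 * (q * q) := by rw [hqq]; linarith
    have g3 : (Nat.sqrt (2 * v) : ℝ) ≤ 2 * q := by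
      by_contra hlt
      push Not at hlt
      nlinarith
    have g4 : 1 ≤ q := (le_max_right _ _).trans hq1
    linarith
  have hsmall : ((Nat.sqrt (2 * v) : ℝ) + 1) * Real.log Y ≤ η * Y := by
    calc ((Nat.sqrt (2 * v) : ℝ) + 1) * Real.log Y ≤ (3 * q) * (η / 3 * q) :=
          mul_le_mul hsq hlog.le hlY (by positivity)
      _ = η * Y := by rw [← hqq]; ring
  have p1 := abs_le.mp (hY0 Y hYY0 Y hY00.le le_rfl)
  have p2 := abs_le.mp (hY0 Y hYY0 ((1 - ε) * Y) (by positivity) (by nlinarith))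
  have p3 := abs_le.mp (hY0 Y hYY0 w hw0.le hwY2)
  have p4 := abs_le.mp (hY0 Y hYY0 ((v : ℝ) - 1) (by linarith) (by linarith))
  have h7 := mul_le_mul_of_nonneg_right hcard3 hlY
  have h8 : ((Nat.primeCounting ⌊Y⌋₊ : ℝ) - (Nat.primeCounting ⌊(1 - ε) * Y⌋₊ : ℝ)) * Real.log Y
      = (Nat.primeCounting ⌊Y⌋₊ : ℝ) * Real.log Y -
        (Nat.primeCounting ⌊(1 - ε) * Y⌋₊ : ℝ) * Real.log Y := by ring
  have h9 : (((Nat.sqrt (2 * v) : ℝ) + 1) + ((Nat.primeCounting ⌊w⌋₊ : ℝ) -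
      (Nat.primeCounting ⌊(v : ℝ) - 1⌋₊ : ℝ))) * Real.log Y
      = ((Nat.sqrt (2 * v) : ℝ) + 1) * Real.log Y + (Nat.primeCounting ⌊w⌋₊ : ℝ) * Real.log Y -
        (Nat.primeCounting ⌊(v : ℝ) - 1⌋₊ : ℝ) * Real.log Y := by ring
  rw [h8, h9] at h7
  obtain ⟨p1a, p1b⟩ := p1
  obtain ⟨p2a, p2b⟩ := p2
  obtain ⟨p3a, p3b⟩ := p3
  obtain ⟨p4a, p4b⟩ := p4
  have hfin : w - v ≤ ε * ((1 - ε) * Y) := by
    have : w - v = ε * w := by rw [← hww]; ring
    rw [this]
    exact mul_le_mul_of_nonneg_left hwY h0.le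
  have hη8 : 8 * (η * Y) = ε ^ 2 * Y := by rw [hη]; ring
  have hbig : 4 ≤ ε ^ 2 * Y := by
    rw [div_le_iff₀ (by positivity)] at hYe
    linarith
  have e1 : ε * ((1 - ε) * Y) = ε * Y - ε ^ 2 * Y := by ring
  rw [e1] at hfin
  have p2c : (Nat.primeCounting ⌊(1 - ε) * Y⌋₊ : ℝ) * Real.log Y ≤ η * Y + Y - ε * Y := by linarith
  linarith

/-- For bounded `v` there is a free prime slightly smaller than `n / v`. -/
theorem near_free (ε : ℝ) (h0 : 0 < ε) (h1 : ε ≤ 1 / 2) (V : ℕ) : ∃ N0 : ℕ, ∀ n : ℕ, N0 ≤ n →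
    ∀ S : Finset ℕ, Admissible n S → ∀ v : ℕ, 1 ≤ v → v ≤ V →
    ∃ P : ℕ, P.Prime ∧ v * P ≤ n ∧ (1 - ε) * n < v * P ∧ n < P * P ∧ Free S P := by
  classical
  obtain ⟨Y0, hY02, hY0⟩ := Pool.Agent.Helper377.PntUnif.pnt_unif (ε / 8) (by positivity)
  obtain ⟨Y1, hY1⟩ := log_small (ε / (4 * (2 * V + 1))) (by positivity)
  set M : ℝ := max (max Y0 Y1) (4 * V + 1) with hM
  refine ⟨(V + 1) * (⌈M⌉₊ + 1), ?_⟩
  intro n hn S hS v hv hvV
  have hvR : (1 : ℝ) ≤ v := by exact_mod_cast hv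
  have hv0 : (0 : ℝ) < v := by linarith
  have hvVR : (v : ℝ) ≤ V := by exact_mod_cast hvV
  have hnR : ((V : ℝ) + 1) * (⌈M⌉₊ + 1) ≤ n := by exact_mod_cast hn
  have hMc : M ≤ (⌈M⌉₊ : ℝ) := Nat.le_ceil _
  have hM4 : 4 * (V : ℝ) + 1 ≤ M := le_max_right _ _
  have he1 : 0 < 1 - ε := by linarith
  have hn0 : (0 : ℝ) < n := by nlinarith
  set Y : ℝ := (n : ℝ) / v with hY
  have hvY : (v : ℝ) * Y = n := by rw [hY]; field_simp
  have hY00 : 0 < Y := by rw [hY]; positivity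
  have hYM : M < Y := by
    by_contra hlt
    push Not at hlt
    have g1 : (v : ℝ) * Y ≤ V * M := mul_le_mul hvVR hlt hY00.le (by positivity)
    nlinarith
  have hYY0 : Y0 ≤ Y := (((le_max_left _ _).trans (le_max_left _ _)).trans hYM.le)
  have hYY1 : Y1 ≤ Y := (((le_max_right _ _).trans (le_max_left _ _)).trans hYM.le)
  have hYV : 4 * (V : ℝ) + 1 < Y := lt_of_le_of_lt hM4 hYM
  have hmem : ∀ P ∈ PI ((1 - ε) * Y) Y, P.Prime ∧ (1 - ε) * Y < (P : ℝ) ∧ (P : ℝ) ≤ Y :=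
    fun P hP => (mem_PI (by positivity) hY00.le P).mp hP
  have hhalf : ∀ P ∈ PI ((1 - ε) * Y) Y, Y / 2 < (P : ℝ) := by
    intro P hP
    have := (hmem P hP).2.1
    nlinarith
  have hsq : (n : ℝ) ≤ (Y / 2) * (Y / 2) := by nlinarith
  have hprod : ∀ P ∈ PI ((1 - ε) * Y) Y, ∀ Q ∈ PI ((1 - ε) * Y) Y, n < P * Q := by
    intro P hP Q hQ
    have : (Y / 2) * (Y / 2) < (P : ℝ) * Q :=
      mul_lt_mul'' (hhalf P hP) (hhalf Q hQ) (by positivity) (by positivity)
    have : (n : ℝ) < (P : ℝ) * Q := lt_of_le_of_lt hsq this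
    exact_mod_cast this
  by_contra hcon
  push Not at hcon
  have hgood : ∀ P ∈ PI ((1 - ε) * Y) Y, ¬ Free S P := by
    intro P hP
    obtain ⟨g1, g2, g3⟩ := hmem P hP
    have g4 : v * P ≤ n := by
      have : (v : ℝ) * P ≤ n := by rw [← hvY]; exact mul_le_mul_of_nonneg_left g3 hv0.le
      exact_mod_cast this
    have g5 : (1 - ε) * n < (v : ℝ) * P := by
      have : (v : ℝ) * ((1 - ε) * Y) < v * P := mul_lt_mul_of_pos_left g2 hv0
      calc (1 - ε) * (n : ℝ) = (v : ℝ) * ((1 - ε) * Y) := by rw [← hvY]; ring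
        _ < _ := this
    exact hcon P g1 g4 g5 (hprod P hP P hP)
  obtain ⟨c, hc, hinj⟩ := cofactors hS (PI ((1 - ε) * Y) Y)
    (fun P hP => ⟨(hmem P hP).1, hgood P hP⟩) hprod
  have hmaps : ∀ P ∈ PI ((1 - ε) * Y) Y, (c P).minFac ∈ Finset.range (2 * V + 1) := by
    intro P hP
    have g1 := hc P hP
    have g4 : P * c P ≤ n := (Finset.mem_Icc.mp (hS.1 g1.2)).2
    have g5 : (P : ℝ) * c P ≤ n := by exact_mod_cast g4
    rw [Finset.mem_range, Nat.lt_succ_iff]
    refine (Nat.minFac_le (by omega)).trans ?_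
    by_contra hlt
    push Not at hlt
    have g6 : (2 * V : ℝ) < c P := by exact_mod_cast hlt
    have g7 : (Y / 2) * (2 * V : ℝ) < (P : ℝ) * c P := by
      apply mul_lt_mul'' (hhalf P hP) g6 <;> positivity
    nlinarith
  have hcard := Finset.card_le_card_of_injOn _ (fun P hP => hmaps P hP) hinj
  rw [Finset.card_range] at hcard
  have hcard3 : ((PI ((1 - ε) * Y) Y).card : ℝ) ≤ 2 * V + 1 := by exact_mod_cast hcard
  rw [card_PI (by nlinarith)] at hcard3
  have hYone : 1 ≤ Y := by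
    have : (0 : ℝ) ≤ V := Nat.cast_nonneg V
    linarith
  have hlY : 0 ≤ Real.log Y := Real.log_nonneg hYone
  have hlog := hY1 Y hYY1
  have p1 := abs_le.mp (hY0 Y hYY0 Y hY00.le le_rfl)
  have p2 := abs_le.mp (hY0 Y hYY0 ((1 - ε) * Y) (by positivity) (by nlinarith))
  have h7 := mul_le_mul_of_nonneg_right hcard3 hlY
  have h8 : ((Nat.primeCounting ⌊Y⌋₊ : ℝ) - (Nat.primeCounting ⌊(1 - ε) * Y⌋₊ : ℝ)) * Real.log Y
      = (Nat.primeCounting ⌊Y⌋₊ : ℝ) * Real.log Y -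
        (Nat.primeCounting ⌊(1 - ε) * Y⌋₊ : ℝ) * Real.log Y := by ring
  rw [h8] at h7
  have h9 : (2 * (V : ℝ) + 1) * Real.log Y ≤ ε / 4 * Y := by
    calc (2 * (V : ℝ) + 1) * Real.log Y ≤ (2 * (V : ℝ) + 1) * (ε / (4 * (2 * V + 1)) * Y) :=
          mul_le_mul_of_nonneg_left hlog.le (by positivity)
      _ = ε / 4 * Y := by field_simp
  obtain ⟨p1a, p1b⟩ := p1
  obtain ⟨p2a, p2b⟩ := p2
  have hpos : 0 < ε * Y := by positivity
  have e3 : ε / 8 * Y = (ε * Y) / 8 := by ring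
  have e4 : ε / 4 * Y = (ε * Y) / 4 := by ring
  rw [e3] at p1a p1b p2a p2b
  rw [e4] at h9
  have p2c : (Nat.primeCounting ⌊(1 - ε) * Y⌋₊ : ℝ) * Real.log Y ≤ (ε * Y) / 8 + Y - ε * Y := by linarith
  linarith

/-- **Insertion.** A prime `p ≤ √n` which divides no element of `S` can be inserted, with a gain of `(1 - ε) n`. -/
theorem insertion (ε : ℝ) (h0 : 0 < ε) (h1 : ε ≤ 1) : ∃ N0 : ℕ, ∀ n : ℕ, N0 ≤ n →
    ∀ p : ℕ, p.Prime → p * p ≤ n → ∀ S : Finset ℕ, Admissible n S → (∀ s ∈ S, ¬ p ∣ s) →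
    ∃ T : Finset ℕ, Admissible n T ∧
      ((∑ s ∈ S, s : ℕ) : ℝ) + (1 - ε) * n ≤ ((∑ s ∈ T, s : ℕ) : ℝ) ∧
      ∀ r : ℕ, r.Prime → r * r ≤ n → (∃ t ∈ T, r ∣ t) → r = p ∨ ∃ s ∈ S, r ∣ s := by
  set K : ℕ := ⌈4 / ε⌉₊ + 2 with hK
  have hK4 : 4 / ε ≤ K := by
    have := Nat.le_ceil (4 / ε)
    rw [hK]; push_cast; linarith
  obtain ⟨N1, hN1⟩ := near (ε / 4) (by positivity) (by linarith)
  obtain ⟨N2, hN2⟩ := near_free (ε / 4) (by positivity) (by linarith) (K * K)
  refine ⟨max N1 N2, ?_⟩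
  intro n hn p
  have hn1 : N1 ≤ n := (le_max_left _ _).trans hn
  have hn2 : N2 ≤ n := (le_max_right _ _).trans hn
  have hnn : (0 : ℝ) ≤ n := Nat.cast_nonneg n
  induction p using Nat.strong_induction_on with
  | _ p ih =>
  intro hp hpp S hS hun
  have hpc : ∀ s ∈ S, Nat.Coprime p s := fun s hs => (hp.coprime_iff_not_dvd).2 (hun s hs)
  have small : ∀ P : ℕ, P.Prime → n < P * P → ∀ r : ℕ, r.Prime → r * r ≤ n → ¬ r ∣ P := by
    intro P hP hPP r hr hrr hd
    have := (Nat.prime_dvd_prime_iff_eq hr hP).1 hd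
    subst this
    omega
  -- insertion with a free prime
  have free : ∀ v P : ℕ, (∀ r : ℕ, r.Prime → r ∣ v → r = p) → (∀ s ∈ S, Nat.Coprime v s) → K ≤ v →
      P.Prime → v * P ≤ n → (1 - ε / 4) * n < v * P → n < P * P → Free S P →
      ∃ T : Finset ℕ, Admissible n T ∧
      ((∑ s ∈ S, s : ℕ) : ℝ) + (1 - ε) * n ≤ ((∑ s ∈ T, s : ℕ) : ℝ) ∧
      ∀ r : ℕ, r.Prime → r * r ≤ n → (∃ t ∈ T, r ∣ t) → r = p ∨ ∃ s ∈ S, r ∣ s := by
    intro v P hv hvc hKv hP hvP hvP2 hPP hf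
    have hv2 : 2 ≤ v := by omega
    have hP2 := hP.two_le
    obtain ⟨g1, g2⟩ := swap (b := v * P) (R := P) hS (by nlinarith) hvP
      (fun s hs hsP => Nat.Coprime.mul_left (hvc s hs) (free_coprime hP hf hs hsP))
    refine ⟨_, g1, ?_, ?_⟩
    · have g3 : ((∑ s ∈ S, s : ℕ) : ℝ) + v * P ≤
          ((∑ s ∈ insert (v * P) (S.erase P), s : ℕ) : ℝ) + P := by exact_mod_cast g2
      have g4 : (K : ℝ) * P ≤ n := by
        have : K * P ≤ n := (Nat.mul_le_mul_right P hKv).trans hvP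
        exact_mod_cast this
      have g5 : (P : ℝ) ≤ ε / 4 * n := by
        have hP0 : (0 : ℝ) ≤ P := Nat.cast_nonneg P
        have g6 : 4 / ε * P ≤ n := (mul_le_mul_of_nonneg_right hK4 hP0).trans g4
        calc (P : ℝ) = ε / 4 * (4 / ε * P) := by field_simp
          _ ≤ _ := mul_le_mul_of_nonneg_left g6 (by positivity)
      nlinarith
    · rintro r hr hrr ⟨t, ht, hrt⟩
      rcases Finset.mem_insert.1 ht with rfl | ht
      · rcases (Nat.Prime.dvd_mul hr).1 hrt with h | h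
        · exact Or.inl (hv r hr h)
        · exact absurd h (small P hP hPP r hr hrr)
      · exact Or.inr ⟨t, Finset.mem_of_mem_erase ht, hrt⟩
  rcases lt_or_ge ((1 - ε / 4) * Real.sqrt n) (p : ℝ) with hlarge | hsm
  · -- large `p`: its square
    have hp2 := hp.two_le
    obtain ⟨g1, g2⟩ := swap (b := p * p) (R := 0) hS (by nlinarith) hpp
      (fun s hs _ => Nat.Coprime.mul_left (hpc s hs) (hpc s hs))
    refine ⟨_, g1, ?_, ?_⟩
    · have g3 : ((∑ s ∈ S, s : ℕ) : ℝ) + p * p ≤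
          ((∑ s ∈ insert (p * p) (S.erase 0), s : ℕ) : ℝ) + 0 := by exact_mod_cast g2
      have hr0 : 0 ≤ Real.sqrt n := Real.sqrt_nonneg _
      have hrr : Real.sqrt n * Real.sqrt n = n := Real.mul_self_sqrt hnn
      have g4 : ((1 - ε / 4) * Real.sqrt n) * ((1 - ε / 4) * Real.sqrt n) ≤ (p : ℝ) * p := by
        apply mul_self_le_mul_self _ hlarge.le
        apply mul_nonneg _ hr0
        linarith
      have g5 : ((1 - ε / 4) * Real.sqrt n) * ((1 - ε / 4) * Real.sqrt n) =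
          (1 - ε / 4) ^ 2 * n := by
        calc _ = (1 - ε / 4) ^ 2 * (Real.sqrt n * Real.sqrt n) := by ring
          _ = _ := by rw [hrr]
      have g6 : (1 - ε) * (n : ℝ) ≤ (1 - ε / 4) ^ 2 * n := by
        apply mul_le_mul_of_nonneg_right _ hnn
        nlinarith
      linarith
    · rintro r hr hrr ⟨t, ht, hrt⟩
      rcases Finset.mem_insert.1 ht with rfl | ht
      · left
        rcases (Nat.Prime.dvd_mul hr).1 hrt with h | h <;>
          exact (Nat.prime_dvd_prime_iff_eq hr hp).1 h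
      · exact Or.inr ⟨t, Finset.mem_of_mem_erase ht, hrt⟩
  rcases lt_or_ge p K with hpK | hpK
  · -- small `p`: a power
    obtain ⟨m, hm1, hm2⟩ := exists_nat_pow_near (x := K) (y := p) (by omega) hp.one_lt
    have hv : p ^ (m + 1) ≤ K * K := by
      rw [pow_succ]
      exact Nat.mul_le_mul hm1 hpK.le
    obtain ⟨P, k1, k2, k3, k4, k5⟩ := hN2 n hn2 S hS (p ^ (m + 1)) (Nat.one_le_pow _ _ hp.pos) hv
    refine free (p ^ (m + 1)) P ?_ ?_ hm2.le k1 k2 k3 k4 k5
    · intro r hr hd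
      exact (Nat.prime_dvd_prime_iff_eq hr hp).1 (hr.dvd_of_dvd_pow hd)
    · intro s hs
      exact Nat.Coprime.pow_left _ (hpc s hs)
  · obtain ⟨P, k1, k2, k3, k4, k5⟩ := hN1 n hn1 S hS p hp.one_lt.le hsm
    rcases k5 with hf | ⟨u, hu, hup, huS⟩
    · exact free p P (fun r hr hd => (Nat.prime_dvd_prime_iff_eq hr hp).1 hd) hpc hpK k1 k2 k3 k4 hf
    · have hPc : ∀ s ∈ S, s ≠ P * u → Nat.Coprime (P * u) s := fun s hs hne => hS.2 huS hs (Ne.symm hne)
      have hp2 := hp.two_le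
      have hP2 := k1.two_le
      have hpP : p < P := by
        by_contra hlt
        push Not at hlt
        have : P * P ≤ p * p := Nat.mul_le_mul hlt hlt
        omega
      obtain ⟨g1, g2⟩ := swap (b := p * P) (R := P * u) hS (by nlinarith) k2
        (fun s hs hne => Nat.Coprime.mul_left (hpc s hs)
          (Nat.Coprime.coprime_dvd_left (dvd_mul_right P u) (hPc s hs hne)))
      have hun' : ∀ s ∈ insert (p * P) (S.erase (P * u)), ¬ u ∣ s := by
        intro s hs hd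
        rcases Finset.mem_insert.1 hs with rfl | hs
        · rcases (Nat.Prime.dvd_mul hu).1 hd with h | h
          · have := (Nat.prime_dvd_prime_iff_eq hu hp).1 h
            omega
          · have := (Nat.prime_dvd_prime_iff_eq hu k1).1 h
            omega
        · have h2 := hPc s (Finset.mem_of_mem_erase hs) (Finset.ne_of_mem_erase hs)
          have h3 := Nat.Coprime.coprime_dvd_left (dvd_mul_left u P) h2
          exact (hu.coprime_iff_not_dvd).1 h3 hd
      have huu : u * u ≤ n := (Nat.mul_le_mul hup.le hup.le).trans hpp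
      obtain ⟨T, t1, t2, t3⟩ := ih u hup hu huu _ g1 hun'
      refine ⟨T, t1, ?_, ?_⟩
      · have g3 : ∑ s ∈ S, s ≤ ∑ s ∈ insert (p * P) (S.erase (P * u)), s := by
          have : P * u ≤ p * P := by rw [mul_comm p P]; exact Nat.mul_le_mul_left P hup.le
          omega
        have g4 : ((∑ s ∈ S, s : ℕ) : ℝ) ≤
            ((∑ s ∈ insert (p * P) (S.erase (P * u)), s : ℕ) : ℝ) := by exact_mod_cast g3
        linarith
      · intro r hr hrr h
        rcases t3 r hr hrr h with h | ⟨s, hs, hrs⟩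
        · exact Or.inr ⟨P * u, huS, h ▸ dvd_mul_left u P⟩
        · rcases Finset.mem_insert.1 hs with rfl | hs
          · rcases (Nat.Prime.dvd_mul hr).1 hrs with h | h
            · exact Or.inl ((Nat.prime_dvd_prime_iff_eq hr hp).1 h)
            · exact absurd h (small P k1 k4 r hr hrr)
          · exact Or.inr ⟨s, Finset.mem_of_mem_erase hs, hrs⟩

end Pool.Agent.Y82.MS
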